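import Pool.Agent.Lib.MP_5e64e7_nt.Main
import Pool.Agent.Lib.MP_5e64e7_nt.Exa

set_option autoImplicit false

/-!
# Explicit tuples for the modular Schanuel conjecture with derivatives

If `z_1, ..., z_n` are extremely well approximated, in a hierarchical way, by points `g i` with
`g` an integer matrix whose determinant is a power of `2`, then the `4n + 1` numbers
`z_l, j(z_l), j'(z_l), j''(z_l)` and `j''(i)` are algebraically independent over the rationals.
An explicit tuple with this property is given for every `n`.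
-/

noncomputable section

namespace Pool.Agent.Results.MP_5e64e7_nt.ExplicitTuples

/-- the CM point `g i = (g₀₀ i + g₀₁) / (g₁₀ i + g₁₁)` -/
def cmPt (g : Matrix (Fin 2) (Fin 2) ℤ) : ℂ :=
  ((g 0 0 : ℂ) * Complex.I + (g 0 1 : ℂ)) / ((g 1 0 : ℂ) * Complex.I + (g 1 1 : ℂ))

/-- Hierarchical approximation of quality `C`: for some `B ≥ 2` and integer matrices `g_l` with
entries of absolute value at most `B` and determinant a power of `2`, every `z_l ≠ g_l i`,
`|z_0 - g_0 i| ≤ exp(-B^C)` and `|z_{l+1} - g_{l+1} i| ≤ |z_l - g_l i|^C`. -/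
def Hier (C : ℕ) {n : ℕ} (z : Fin n → ℂ) : Prop :=
  ∃ (B : ℕ) (e : Fin n → ℕ) (g : Fin n → Matrix (Fin 2) (Fin 2) ℤ), 2 ≤ B ∧
    (∀ l, (g l).det = 2 ^ e l) ∧ (∀ l i k, |g l i k| ≤ (B : ℤ)) ∧ (∀ l, z l ≠ cmPt (g l)) ∧
    (∀ l : Fin n, (l : ℕ) = 0 → ‖z l - cmPt (g l)‖ ≤ Real.exp (-((B : ℝ) ^ C))) ∧
    (∀ l m : Fin n, (m : ℕ) = (l : ℕ) + 1 →
      ‖z m - cmPt (g m)‖ ≤ ‖z l - cmPt (g l)‖ ^ C)

open Pool.Agent.Lib.MP5e in
/-- the value `j''(i) = -10368 ϑ²` -/
theorem ddj_I : deriv (deriv jf) Complex.I = -10368 * (th : ℂ) ^ 2 := by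
  have hI : 0 < Complex.I.im := by simp
  rw [ddjf hI, E6f_I, E4f_I]
  have hs : (s0 : ℂ) ≠ 0 := by exact_mod_cast s0_pos.ne'
  have hth : (th : ℂ) = (Real.pi : ℂ) * (s0 : ℂ) := by
    unfold th; push_cast; rfl
  rw [hth]
  field_simp
  ring

open Pool.Agent.Lib.MP5e in
theorem key (n : ℕ) (z : Fin n → ℂ) (hz : ∀ l, 0 < (z l).im) (hN : ∀ C : ℕ, Near C z) :
    AlgebraicIndependent ℚ (fun p : Option (Fin n × Fin 4) =>
      p.elim (deriv (deriv jf) Complex.I) fun q =>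
        ![z q.1, jf (z q.1), deriv jf (z q.1), deriv (deriv jf) (z q.1)] q.2) := by
  have h := main_indep n z hz hN
  have h2 := h.polynomial_aeval_of_transcendental
    (f := fun p : Option (Fin n × Fin 4) => p.elim (Polynomial.C (-10368 : ℚ) * Polynomial.X ^ 2)
      fun _ => Polynomial.X) ?_
  · convert h2 using 1
    funext p
    rcases p with _ | q
    · simp [fam, ddj_I]
    · simp [fam, J4]
  · intro p
    rcases p with _ | q
    · have h3 : (Polynomial.C (-10368 : ℚ) * Polynomial.X ^ 2 : Polynomial ℚ).natDegree = 2 := by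
        rw [Polynomial.natDegree_C_mul_X_pow 2 _ (by norm_num)]
      refine Polynomial.transcendental _ (by simp only [Option.elim]; rw [h3]; norm_num) ?_
      simp only [Option.elim]
      rw [Polynomial.leadingCoeff_C_mul_X_pow]
      exact mem_nonZeroDivisors_of_ne_zero (by norm_num)
    · exact Polynomial.transcendental_X ℚ

/-- **Theorem.** See the header. -/
theorem result :
    ∀ (E4 E6 j : ℂ → ℂ),
    E4 = (fun τ : ℂ => 1 + 240 * ∑' m : ℕ,
      (((ArithmeticFunction.sigma 3) (m + 1) : ℕ) : ℂ) *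
        Complex.exp (2 * (Real.pi : ℂ) * Complex.I * τ) ^ (m + 1)) →
    E6 = (fun τ : ℂ => 1 - 504 * ∑' m : ℕ,
      (((ArithmeticFunction.sigma 5) (m + 1) : ℕ) : ℂ) *
        Complex.exp (2 * (Real.pi : ℂ) * Complex.I * τ) ^ (m + 1)) →
    j = (fun τ : ℂ => 1728 * E4 τ ^ 3 / (E4 τ ^ 3 - E6 τ ^ 2)) →
    (∀ (n : ℕ) (z : Fin n → ℂ), (∀ l, 0 < (z l).im) → (∀ C : ℕ, Hier C z) →
      AlgebraicIndependent ℚ (fun p : Option (Fin n × Fin 4) =>
        p.elim (deriv (deriv j) Complex.I) fun q =>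
          ![z q.1, j (z q.1), deriv j (z q.1), deriv (deriv j) (z q.1)] q.2)) ∧
    (∀ a : ℕ → ℕ, a 0 = 1 → (∀ k, a (k + 1) = 2 ^ ((k + 1) * a k)) →
      ∀ (n : ℕ) (z : Fin n → ℂ),
      (∀ l : Fin n, z l = Complex.I + ((∑' m : ℕ, (1 : ℝ) / 2 ^ a (m * n + l) : ℝ) : ℂ)) →
      (∀ C : ℕ, Hier C z) ∧
      AlgebraicIndependent ℚ (fun p : Option (Fin n × Fin 4) =>
        p.elim (deriv (deriv j) Complex.I) fun q =>
          ![z q.1, j (z q.1), deriv j (z q.1), deriv (deriv j) (z q.1)] q.2)) := by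
  intro E4 E6 j h4 h6 hj
  have hj' : j = Pool.Agent.Lib.MP5e.jf := by
    rw [hj, h4, h6]; rfl
  have hmain : ∀ (n : ℕ) (z : Fin n → ℂ), (∀ l, 0 < (z l).im) → (∀ C : ℕ, Hier C z) →
      AlgebraicIndependent ℚ (fun p : Option (Fin n × Fin 4) =>
        p.elim (deriv (deriv j) Complex.I) fun q =>
          ![z q.1, j (z q.1), deriv j (z q.1), deriv (deriv j) (z q.1)] q.2) := by
    intro n z hz hN
    rw [hj']
    exact key n z hz hN
  refine ⟨hmain, fun a h0 h1 n z hz => ?_⟩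
  have hH : ∀ C : ℕ, Hier C z := by
    rcases Nat.eq_zero_or_pos n with hn | hn
    · subst hn
      intro C
      exact ⟨2, fun l => l.elim0, fun l => l.elim0, le_rfl, fun l => l.elim0, fun l => l.elim0,
        fun l => l.elim0, fun l => l.elim0, fun l => l.elim0⟩
    · exact fun C => Pool.Agent.Lib.MP5e.exa a h0 h1 n hn z hz C
  refine ⟨hH, hmain n z (fun l => ?_) hH⟩
  rw [hz l]
  simp

end Pool.Agent.Results.MP_5e64e7_nt.ExplicitTuples
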