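import Pool.Agent.Lib.MP_5e64e7_nt.HFin
import Pool.Agent.Lib.MP_5e64e7_nt.OExa

set_option autoImplicit false

/-!
# The modular Schanuel conjecture with derivatives for all tuples from the field `ℚ(i)(w)`

Let `w` be a complex number which is extremely well approximable by Gaussian rationals, and
`E = ℚ(i)(w)`.

(1) The inequality of Q1 (the conclusion of the frozen statement) holds for all `n` and all `z` in
`(E ∩ ℍ)ⁿ`, without any exception: related, dependent and special coordinates are allowed.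

(2) If `z₁, …, z_n ∈ E ∩ ℍ` are not quadratic over `ℚ` and no two of them are related by an element of
`GL₂⁺(ℚ)`, then the `3n + 2` numbers `w, j(z_k), j'(z_k), j''(z_k), j''(i)` are algebraically
independent over the rationals.
-/

noncomputable section

namespace Pool.Agent.Results.MP_5e64e7_nt.GaussianField

/-- `w` is extremely well approximable by Gaussian rationals: for every `C` there are `B ≥ 2` and a
Gaussian rational `(a + b i)/c ≠ w` of height at most `B` with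
`|w - (a + b i)/c| ≤ exp(-B^C)`. -/
def SuperGaussian (w : ℂ) : Prop :=
  ∀ C : ℕ, ∃ (B c : ℕ) (a b : ℤ), 2 ≤ B ∧ 1 ≤ c ∧ c ≤ B ∧ |a| ≤ (B : ℤ) ∧ |b| ≤ (B : ℤ) ∧
    w ≠ ((a : ℂ) + (b : ℂ) * Complex.I) / (c : ℂ) ∧
    ‖w - ((a : ℂ) + (b : ℂ) * Complex.I) / (c : ℂ)‖ ≤ Real.exp (-((B : ℝ) ^ C))

/-- the field `ℚ(i)(w)` -/
def E (w : ℂ) : IntermediateField ℚ ℂ := IntermediateField.adjoin ℚ ({Complex.I, w} : Set ℂ)

/-- a root of a quadratic polynomial over `ℚ` -/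
def Quadratic (z : ℂ) : Prop := ∃ a b c : ℚ, a ≠ 0 ∧ (a : ℂ) * z ^ 2 + (b : ℂ) * z + (c : ℂ) = 0

/-- `z' = h z` for some `h` in `GL₂⁺(ℚ)` -/
def Related (z z' : ℂ) : Prop := ∃ p q r s : ℚ, 0 < p * s - q * r ∧
  z' = ((p : ℂ) * z + (q : ℂ)) / ((r : ℂ) * z + (s : ℂ))

/-- the inequality of Q1 for `z`: the statement of `S17117` for one tuple -/
def Schanuel (j : ℂ → ℂ) {n : ℕ} (z : Fin n → ℂ) : Prop :=
  ∀ U : Set (Fin n → ℂ),
    U = {w : Fin n → ℂ | (∀ i, 0 < (w i).im) ∧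
      (∀ (i k : Fin n) (a b c e : ℚ), 0 < a * e - b * c →
        z i = ((a : ℂ) * z k + (b : ℂ)) / ((c : ℂ) * z k + (e : ℂ)) →
        w i = ((a : ℂ) * w k + (b : ℂ)) / ((c : ℂ) * w k + (e : ℂ))) ∧
      (∀ i, (∃ a b c : ℚ, a ≠ 0 ∧
        (a : ℂ) * z i ^ 2 + (b : ℂ) * z i + (c : ℂ) = 0) → w i = z i)} →
    ∀ d : ℕ,
      ((d : WithBot ENat) +
        ringKrullDim (MvPolynomial (Fin n) ℂ ⧸
          (⨅ w ∈ U, RingHom.ker (MvPolynomial.eval w)))
        ≤ ringKrullDim (MvPolynomial (Fin 4 × Fin n) (integralClosure ℚ ℂ) ⧸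
          (⨅ w ∈ U, RingHom.ker (MvPolynomial.aeval (R := integralClosure ℚ ℂ)
            (fun p : Fin 4 × Fin n =>
              ![w p.2, j (w p.2), deriv j (w p.2), deriv (deriv j) (w p.2)] p.1))))) →
      ∃ f : Fin d → ℂ, AlgebraicIndependent ℚ f ∧
        ∀ r, ∃ p : Fin 4 × Fin n,
          f r = ![z p.2, j (z p.2), deriv j (z p.2), deriv (deriv j) (z p.2)] p.1

/-- **Theorem.** See the header. -/
theorem result :
    ∀ (E4 E6 j : ℂ → ℂ),
    E4 = (fun τ : ℂ => 1 + 240 * ∑' m : ℕ,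
      (((ArithmeticFunction.sigma 3) (m + 1) : ℕ) : ℂ) *
        Complex.exp (2 * (Real.pi : ℂ) * Complex.I * τ) ^ (m + 1)) →
    E6 = (fun τ : ℂ => 1 - 504 * ∑' m : ℕ,
      (((ArithmeticFunction.sigma 5) (m + 1) : ℕ) : ℂ) *
        Complex.exp (2 * (Real.pi : ℂ) * Complex.I * τ) ^ (m + 1)) →
    j = (fun τ : ℂ => 1728 * E4 τ ^ 3 / (E4 τ ^ 3 - E6 τ ^ 2)) →
    (∀ w : ℂ, SuperGaussian w → ∀ (n : ℕ) (z : Fin n → ℂ), (∀ k, 0 < (z k).im) →
      (∀ k, z k ∈ E w) →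
      Schanuel j z ∧
      ((∀ k, ¬ Quadratic (z k)) → (∀ k l, k ≠ l → ¬ Related (z k) (z l)) →
        AlgebraicIndependent ℚ (fun p : Option (Option (Fin n × Fin 3)) =>
          p.elim (deriv (deriv j) Complex.I) fun q => q.elim w fun r =>
            ![j (z r.1), deriv j (z r.1), deriv (deriv j) (z r.1)] r.2))) ∧
    (∀ a : ℕ → ℕ, a 0 = 1 → (∀ k, a (k + 1) = 2 ^ ((k + 1) * a k)) →
      SuperGaussian ((∑' m : ℕ, (1 : ℝ) / 2 ^ a m : ℝ) : ℂ)) := by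
  intro E4 E6 j h4 h6 hj
  have hj' : j = Pool.Agent.Lib.MP5e.jf := by
    rw [hj, h4, h6]; rfl
  refine ⟨?_, fun a h0 h1 => Pool.Agent.Lib.MP5e.oexa a h0 h1⟩
  rw [hj']
  intro w hw n z him hz
  refine ⟨?_, fun hq hrel => Pool.Agent.Lib.MP5e.hB hw z him hz hq hrel⟩
  intro U hU d hd
  rw [hU] at hd
  exact Pool.Agent.Lib.MP5e.hA hw z him hz d hd

end Pool.Agent.Results.MP_5e64e7_nt.GaussianField
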